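import Pool.Agent.H.MP_b44c8b_co.B

namespace Pool.Agent.Results.MP_b44c8b_co.Yes

/-- For every `n ≥ 1`, `[n] = {1,…,n}` has a partition (parts nonempty, pairwise disjoint,
covering) all of whose parts have at most 3 elements and sum a power of 3. -/
theorem result (n : ℕ) (_hn : 1 ≤ n) :
    ∃ P : Finpartition (Finset.Icc 1 n),
      ∀ S ∈ P.parts, 1 ≤ S.card ∧ S.card ≤ 3 ∧ ∃ j : ℕ, ∑ s ∈ S, s = 3 ^ j := by
  obtain ⟨P, hP⟩ := (Pool.Agent.H.MP_b44c8b_co.main n).part (Finset.Icc 1 n)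
    (fun x => Finset.mem_Icc)
  exact ⟨P, fun S hS => ⟨(P.nonempty_of_mem_parts hS).card_pos, hP S hS⟩⟩

end Pool.Agent.Results.MP_b44c8b_co.Yes
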